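import Mathlib
import Pool.Agent.N909.TF.Free
import Pool.Agent.N909.TF.Idx

set_option autoImplicit false
set_option linter.unusedSectionVars false

/-!
# The least summand in Goldbach representations in sequential models: the upper bound
-/

open MeasureTheory Filter Set
open scoped ENNReal Topology

namespace Pool.Agent.N233.TL

open Pool.Agent.R528.RM Pool.Agent.N909.TF

/-- the length of the window -/
noncomputable def hh (c : ℝ) (n : ℕ) : ℕ := ⌊c * (Real.log n ^ 2 * Real.log (Real.log n))⌋₊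

/-! ### Analysis -/

lemma ana0 (c η : ℝ) (hc : 0 < c) (hη : 0 < η) (hη1 : η < 1) : ∀ᶠ y : ℝ in atTop, ∀ H : ℝ,
    c * (Real.exp y ^ 2 * y) - 1 ≤ H → H ≤ c * (Real.exp y ^ 2 * y) →
      1 < H ∧ (1 - η) ^ 2 * (c / 2) * Real.exp y ^ 2 ≤ H / Real.log H := by
  have h1 : ∀ᶠ y : ℝ in atTop, 2 ≤ c * y * η ∧ 2 ≤ c * y := by
    have e1 : Tendsto (fun y : ℝ => c * y * η) atTop atTop :=
      (tendsto_id.const_mul_atTop hc).atTop_mul_const hη
    have e2 : Tendsto (fun y : ℝ => c * y) atTop atTop := tendsto_id.const_mul_atTop hc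
    filter_upwards [e1.eventually_ge_atTop 2, e2.eventually_ge_atTop 2] with y g1 g2
    exact ⟨g1, g2⟩
  have h2 : ∀ᶠ y : ℝ in atTop, Real.log c + Real.log y ≤ 2 * η * y := by
    have e1 := Real.isLittleO_log_id_atTop.def (show (0 : ℝ) < η by exact hη)
    have e2 : Tendsto (fun y : ℝ => η * y) atTop atTop := tendsto_id.const_mul_atTop hη
    filter_upwards [e1, e2.eventually_ge_atTop (Real.log c), eventually_gt_atTop 0] with y g1 g2 g3
    rw [id, Real.norm_of_nonneg g3.le] at g1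
    have := (le_abs_self _).trans g1
    linarith
  filter_upwards [h1, h2, eventually_ge_atTop 1] with y ⟨g1, g1'⟩ g2 g3 H hH1 hH2
  have hE : 1 ≤ Real.exp y := Real.one_le_exp (by linarith)
  have hE2 : 1 ≤ Real.exp y ^ 2 := one_le_pow₀ hE
  obtain ⟨E, hEd⟩ : ∃ E, E = Real.exp y ^ 2 := ⟨_, rfl⟩
  rw [← hEd] at hH1 hH2 hE2 ⊢
  have hy0 : 0 < y := by linarith
  have hcy : 0 < c * y := by positivity
  have k1 : c * y ≤ c * (E * y) := by
    have : c * (E * y) = (c * y) * E := by ring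
    rw [this]
    exact le_mul_of_one_le_right hcy.le hE2
  have k2 : c * y * η ≤ c * (E * y) * η := mul_le_mul_of_nonneg_right k1 hη.le
  have k3 : (1 - η) * (c * (E * y)) ≤ H := by nlinarith
  have k4 : 1 < H := by
    have : c * y * η < c * y := mul_lt_of_lt_one_right hcy hη1
    linarith
  refine ⟨k4, ?_⟩
  have hlogH : Real.log H ≤ 2 * (1 + η) * y := by
    have l1 : Real.log H ≤ Real.log (c * (E * y)) := Real.log_le_log (by linarith) hH2
    have hE0 : 0 < E := by linarith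
    rw [Real.log_mul hc.ne' (by positivity), Real.log_mul hE0.ne' hy0.ne', hEd, Real.log_pow,
      Real.log_exp] at l1
    push_cast at l1
    linarith
  have hlogH0 : 0 < Real.log H := Real.log_pos k4
  rw [le_div_iff₀ hlogH0]
  have hη' : 0 < 1 - η := by linarith
  calc (1 - η) ^ 2 * (c / 2) * E * Real.log H ≤ (1 - η) ^ 2 * (c / 2) * E * (2 * (1 + η) * y) :=
        mul_le_mul_of_nonneg_left hlogH (by positivity)
    _ = ((1 - η) * (1 + η)) * ((1 - η) * (c * (E * y))) := by ring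
    _ ≤ 1 * ((1 - η) * (c * (E * y))) := by
        apply mul_le_mul_of_nonneg_right _ (by positivity)
        nlinarith
    _ ≤ H := by linarith

lemma tendsto_ll : Tendsto (fun n : ℕ => Real.log (Real.log n)) atTop atTop :=
  Real.tendsto_log_atTop.comp (Real.tendsto_log_atTop.comp tendsto_natCast_atTop_atTop)

lemma ana1 (c η : ℝ) (hc : 0 < c) (hη : 0 < η) (hη1 : η < 1) : ∀ᶠ n : ℕ in atTop,
    (1 : ℝ) < hh c n ∧ (1 - η) ^ 2 * (c / 2) * Real.log n ^ 2 ≤ (hh c n : ℝ) / Real.log (hh c n) := by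
  have h3 : ∀ᶠ n : ℕ in atTop, (1 : ℝ) < Real.log n :=
    (Real.tendsto_log_atTop.comp tendsto_natCast_atTop_atTop).eventually_gt_atTop 1
  filter_upwards [tendsto_ll.eventually (ana0 c η hc hη hη1), h3] with n g1 g2
  have e : Real.exp (Real.log (Real.log n)) = Real.log n := Real.exp_log (by linarith)
  rw [e] at g1
  have h0 : 0 ≤ c * (Real.log n ^ 2 * Real.log (Real.log n)) := by
    have := Real.log_pos g2
    positivity
  exact g1 (hh c n) (Nat.sub_one_lt_floor _).le (Nat.floor_le h0)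

lemma ana2 (c : ℝ) (k₀ : ℕ) : ∀ᶠ n : ℕ in atTop, 2 * hh c n + k₀ + 2 ≤ n := by
  have h3 := (Real.isLittleO_pow_log_id_atTop (n := 3)).def
    (show (0 : ℝ) < 1 / (4 * (|c| + 1)) by positivity)
  have h4 := tendsto_natCast_atTop_atTop (R := ℝ)
  have h5 : ∀ᶠ n : ℕ in atTop, (1 : ℝ) < Real.log n :=
    (Real.tendsto_log_atTop.comp tendsto_natCast_atTop_atTop).eventually_gt_atTop 1
  filter_upwards [h4.eventually h3, h5, eventually_ge_atTop (2 * (k₀ + 2))] with n g1 g2 g3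
  rw [id, Real.norm_of_nonneg (by positivity), Real.norm_of_nonneg (by positivity)] at g1
  have hl : 0 ≤ Real.log (Real.log n) := (Real.log_pos g2).le
  have hl2 : Real.log (Real.log n) ≤ Real.log n := (Real.log_le_sub_one_of_pos (by linarith)).trans (by linarith)
  have k1 : c * (Real.log n ^ 2 * Real.log (Real.log n)) ≤ (|c| + 1) * Real.log n ^ 3 := by
    have a1 : Real.log n ^ 2 * Real.log (Real.log n) ≤ Real.log n ^ 3 := by
      have : Real.log n ^ 3 = Real.log n ^ 2 * Real.log n := by ring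
      rw [this]
      exact mul_le_mul_of_nonneg_left hl2 (by positivity)
    have a0 : 0 ≤ Real.log n ^ 2 * Real.log (Real.log n) := by positivity
    calc c * (Real.log n ^ 2 * Real.log (Real.log n)) ≤ (|c| + 1) * (Real.log n ^ 2 * Real.log (Real.log n)) :=
          mul_le_mul_of_nonneg_right (by linarith [le_abs_self c]) a0
      _ ≤ _ := mul_le_mul_of_nonneg_left a1 (by positivity)
  have k2 : (|c| + 1) * Real.log n ^ 3 ≤ n / 4 := by
    calc (|c| + 1) * Real.log n ^ 3 ≤ (|c| + 1) * (1 / (4 * (|c| + 1)) * n) :=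
          mul_le_mul_of_nonneg_left g1 (by positivity)
      _ = n / 4 := by field_simp
  have k3 : (hh c n : ℝ) ≤ n / 4 := by
    unfold hh
    rcases le_or_gt 0 (c * (Real.log n ^ 2 * Real.log (Real.log n))) with h | h
    · exact (Nat.floor_le h).trans (k1.trans k2)
    · rw [Nat.floor_of_nonpos h.le, Nat.cast_zero]
      positivity
  have k4 : (4 : ℝ) * hh c n ≤ n := by linarith
  have k5 : 4 * hh c n ≤ n := by exact_mod_cast k4
  omega

lemma hh_tendsto (c : ℝ) (hc : 0 < c) : Tendsto (hh c) atTop atTop := by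
  have h1 : Tendsto (fun n : ℕ => c * (Real.log n ^ 2 * Real.log (Real.log n))) atTop atTop := by
    have e1 : Tendsto (fun n : ℕ => Real.log n ^ 2) atTop atTop :=
      (tendsto_pow_atTop (by norm_num)).comp (Real.tendsto_log_atTop.comp tendsto_natCast_atTop_atTop)
    exact (e1.atTop_mul_atTop₀ tendsto_ll).const_mul_atTop hc
  exact tendsto_nat_floor_atTop.comp h1

variable {Ω : Type} {m0 : MeasurableSpace Ω} {μ : Measure Ω} [IsProbabilityMeasure μ]
  {ℱ : Filtration ℕ m0} {A : ℕ → Set Ω}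

open Classical in
/-- the weights -/
noncomputable def wq (A : ℕ → Set Ω) (c : ℝ) (n k : ℕ) (ω : Ω) : ℝ :=
  if k + 1 < n ∧ n - (k + 1) ≤ k ∧ n - (k + 1) ≤ hh c n then
    (A (n - (k + 1))).indicator (fun _ => (1 : ℝ)) ω else 0

lemma wq_meas (hA : ∀ n, MeasurableSet[ℱ n] (A n)) (c : ℝ) (n k : ℕ) :
    StronglyMeasurable[ℱ k] (wq A c n k) := by
  by_cases h : k + 1 < n ∧ n - (k + 1) ≤ k ∧ n - (k + 1) ≤ hh c n
  · have e : wq A c n k = (A (n - (k + 1))).indicator (fun _ => (1 : ℝ)) := by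
      funext ω
      unfold wq
      rw [if_pos h]
    rw [e]
    exact (@stronglyMeasurable_const _ _ (ℱ k) _ _).indicator (ℱ.mono h.2.1 _ (hA _))
  · have e : wq A c n k = fun _ => 0 := by
      funext ω
      unfold wq
      rw [if_neg h]
    rw [e]
    exact @stronglyMeasurable_const _ _ (ℱ k) _ _

lemma wq01 (c : ℝ) (n k : ℕ) (ω : Ω) : 0 ≤ wq A c n k ω ∧ wq A c n k ω ≤ 1 := by
  unfold wq
  split_ifs
  · exact ⟨indicator_nonneg (fun _ _ => zero_le_one) _, indicator_le_self' (fun _ _ => zero_le_one) _⟩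
  · exact ⟨le_rfl, zero_le_one⟩

lemma SI_ne {c : ℝ} {n : ℕ} {ω : Ω} (h : SI A (wq A c n) n ω ≠ 0) :
    ∃ p, 0 < p ∧ p < n ∧ p ≤ hh c n ∧ ω ∈ A p ∧ ω ∈ A (n - p) := by
  unfold SI at h
  obtain ⟨k, hk, hk'⟩ := Finset.exists_ne_zero_of_sum_ne_zero h
  have h1 := left_ne_zero_of_mul hk'
  have h2 := right_ne_zero_of_mul hk'
  unfold wq at h1
  split_ifs at h1 with hc
  · refine ⟨n - (k + 1), by omega, by omega, hc.2.2, mem_of_indicator_ne_zero h1, ?_⟩
    rw [show n - (n - (k + 1)) = k + 1 by omega]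
    exact mem_of_indicator_ne_zero h2
  · exact absurd rfl h1

lemma SD_ge {c δ : ℝ} {n k₀ : ℕ} {ω : Ω} (hd0 : ∀ k, 0 ≤ dens μ ℱ A k ω)
    (hd : ∀ k, k₀ ≤ k → 1 - δ ≤ dens μ ℱ A k ω * Real.log k) (hk₀ : 2 ≤ k₀)
    (hn : 2 * hh c n + k₀ + 2 ≤ n) :
    (1 - δ) / Real.log n * (({k | ω ∈ A k} ∩ Set.Ioc 0 (hh c n)).ncard : ℝ) ≤ SD μ ℱ A (wq A c n) n ω := by
  classical
  set P := (Finset.Ioc 0 (hh c n)).filter (fun p => ω ∈ A p) with hP
  have hPc : ({k | ω ∈ A k} ∩ Set.Ioc 0 (hh c n)).ncard = P.card := by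
    rw [← Set.ncard_coe_finset]
    congr 1
    ext p
    rw [hP, Finset.coe_filter]
    simp only [mem_inter_iff, mem_ofPred_eq, Set.mem_Ioc, Finset.mem_Ioc]
    tauto
  have hmem : ∀ p ∈ P, 0 < p ∧ p ≤ hh c n ∧ ω ∈ A p := by
    intro p hp
    rw [hP, Finset.mem_filter, Finset.mem_Ioc] at hp
    exact ⟨hp.1.1, hp.1.2, hp.2⟩
  have hw : ∀ p ∈ P, wq A c n (n - 1 - p) ω = 1 := by
    intro p hp
    obtain ⟨h1, h2, h3⟩ := hmem p hp
    unfold wq
    have e : n - (n - 1 - p + 1) = p := by omega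
    rw [e, if_pos ⟨by omega, by omega, h2⟩, indicator_of_mem h3]
  have hlog0 : 0 < Real.log n := Real.log_pos (by
    have : 1 < n := by omega
    exact_mod_cast this)
  have hterm : ∀ p ∈ P, (1 - δ) / Real.log n ≤ wq A c n (n - 1 - p) ω * dens μ ℱ A (n - 1 - p) ω := by
    intro p hp
    rw [hw p hp, one_mul]
    obtain ⟨h1, h2, h3⟩ := hmem p hp
    have h4 := hd (n - 1 - p) (by omega)
    have h5 : Real.log ((n - 1 - p : ℕ) : ℝ) ≤ Real.log n := by
      apply Real.log_le_log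
      · have : 0 < n - 1 - p := by omega
        exact_mod_cast this
      · have : n - 1 - p ≤ n := by omega
        exact_mod_cast this
    rw [div_le_iff₀ hlog0]
    exact h4.trans (mul_le_mul_of_nonneg_left h5 (hd0 _))
  have hinj : Set.InjOn (fun p => n - 1 - p) (P : Set ℕ) := by
    intro p hp q hq hpq
    have h1 := hmem p hp
    have h2 := hmem q hq
    simp only at hpq
    omega
  rw [hPc]
  unfold SD
  calc (1 - δ) / Real.log n * (P.card : ℝ) = ∑ p ∈ P, (1 - δ) / Real.log n := by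
        rw [Finset.sum_const, nsmul_eq_mul, mul_comm]
    _ ≤ ∑ p ∈ P, wq A c n (n - 1 - p) ω * dens μ ℱ A (n - 1 - p) ω := Finset.sum_le_sum hterm
    _ = ∑ k ∈ P.image (fun p => n - 1 - p), wq A c n k ω * dens μ ℱ A k ω := by
        rw [Finset.sum_image hinj]
    _ ≤ ∑ k ∈ Finset.range n, wq A c n k ω * dens μ ℱ A k ω := by
        apply Finset.sum_le_sum_of_subset_of_nonneg
        · intro k hk
          rw [Finset.mem_image] at hk
          obtain ⟨p, hp, rfl⟩ := hk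
          rw [Finset.mem_range]
          have := hmem p hp
          omega
        · intro k _ _
          exact mul_nonneg (wq01 c n k ω).1 (hd0 k)

lemma up_one (hA : ∀ n, MeasurableSet[ℱ n] (A n))
    (hd : ∀ᵐ ω ∂μ, Tendsto (fun n : ℕ => dens μ ℱ A n ω * Real.log n) atTop (𝓝 1))
    {c η : ℝ} (hc : 0 < c) (hη : 0 < η) (hη1 : η < 1) (hcη : 1 + η < (1 - η) ^ 5 * (c / 2)) :
    ∀ᵐ ω ∂μ, ∀ᶠ n : ℕ in atTop, ∃ p, 0 < p ∧ p < n ∧ p ≤ hh c n ∧ ω ∈ A p ∧ ω ∈ A (n - p) := by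
  set T : ℝ := -Real.log η with hT
  have hexpT : Real.exp (-T) = η := by rw [hT, neg_neg, Real.exp_log hη]
  have h1 : Summable (fun n : ℕ => 1 / (n : ℝ) ^ (1 + η)) :=
    Real.summable_one_div_nat_rpow.2 (by linarith)
  have h2 := bc_real (μ := μ) (s := fun n : ℕ => {ω | (1 + η) * Real.log n ≤ Ex μ ℱ A (-T) (wq A c n) n ω}) h1 (by
    filter_upwards [eventually_ge_atTop 1] with n hn
    refine (Ex_tail (μ := μ) hA (-T) (wq A c n) (wq_meas hA c n) (fun k ω => wq01 c n k ω) n _).trans (le_of_eq ?_)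
    have hn0 : (0 : ℝ) < n := by exact_mod_cast hn
    rw [Real.rpow_def_of_pos hn0, one_div, ← Real.exp_neg]
    congr 1
    ring)
  have h01 : ∀ᵐ ω ∂μ, ∀ n, 0 ≤ dens μ ℱ A n ω ∧ dens μ ℱ A n ω ≤ 1 := ae_all_iff.2 fun n => dens01 hA n
  filter_upwards [h2, h01, hd, pnt_ae (μ := μ) hA hd] with ω g1 g2 g3 g4
  obtain ⟨k₀, hk₀⟩ := eventually_atTop.1 (g3.eventually (Ioi_mem_nhds (show 1 - η < 1 by linarith)))
  have g5 := (hh_tendsto c hc).eventually (g4 η hη)
  filter_upwards [g1, ana1 c η hc hη hη1, ana2 c (max k₀ 2), g5, eventually_ge_atTop 3] with n a1 a2 a3 a4 a5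
  by_contra hcon
  have hSI : SI A (wq A c n) n ω = 0 := by
    by_contra h
    exact hcon (SI_ne h)
  have b1 : Ex μ ℱ A (-T) (wq A c n) n ω < (1 + η) * Real.log n := not_le.1 a1
  rw [Ex_eq, hSI, mul_zero, zero_sub, hexpT] at b1
  have b2 := SD_ge (μ := μ) (ℱ := ℱ) (A := A) (c := c) (δ := η) (n := n) (k₀ := max k₀ 2) (ω := ω)
    (fun k => (g2 k).1) (fun k hk => le_of_lt (hk₀ k (le_trans (le_max_left _ _) hk))) (le_max_right _ _) a3
  obtain ⟨a21, a22⟩ := a2
  have hlogn : 0 < Real.log n := Real.log_pos (by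
    have : 1 < n := by omega
    exact_mod_cast this)
  have hη' : 0 < 1 - η := by linarith
  have hq : 0 ≤ (hh c n : ℝ) / Real.log (hh c n) := div_nonneg (by linarith) (Real.log_pos a21).le
  have b3 : (1 - η) * ((hh c n : ℝ) / Real.log (hh c n)) ≤ (({k | ω ∈ A k} ∩ Set.Ioc 0 (hh c n)).ncard : ℝ) := by
    have := (abs_le.1 a4).1
    linarith
  have b4 : (1 - η) * ((1 - η) ^ 2 * (c / 2) * Real.log n ^ 2) ≤ (({k | ω ∈ A k} ∩ Set.Ioc 0 (hh c n)).ncard : ℝ) :=
    (mul_le_mul_of_nonneg_left a22 hη'.le).trans b3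
  have b5 : (1 - η) / Real.log n * ((1 - η) * ((1 - η) ^ 2 * (c / 2) * Real.log n ^ 2)) ≤ SD μ ℱ A (wq A c n) n ω :=
    (mul_le_mul_of_nonneg_left b4 (by positivity)).trans b2
  have b6 : (1 - η) / Real.log n * ((1 - η) * ((1 - η) ^ 2 * (c / 2) * Real.log n ^ 2)) =
      (1 - η) ^ 4 * (c / 2) * Real.log n := by
    field_simp
  rw [b6] at b5
  have b7 : (1 - η) * ((1 - η) ^ 4 * (c / 2) * Real.log n) ≤ (1 - η) * SD μ ℱ A (wq A c n) n ω :=
    mul_le_mul_of_nonneg_left b5 hη'.le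
  have b8 : (1 + η) * Real.log n < (1 - η) ^ 5 * (c / 2) * Real.log n := mul_lt_mul_of_pos_right hcη hlogn
  nlinarith

lemma choose_eta {c : ℝ} (hc : 2 < c) : ∃ η : ℝ, 0 < η ∧ η < 1 ∧ 1 + η < (1 - η) ^ 5 * (c / 2) := by
  have h1 : ContinuousAt (fun η : ℝ => (1 - η) ^ 5 * (c / 2) - (1 + η)) 0 := by fun_prop
  have h2 : (0 : ℝ) < (1 - 0) ^ 5 * (c / 2) - (1 + 0) := by norm_num; linarith
  have h3 := h1.eventually (lt_mem_nhds h2)
  obtain ⟨r, hr, hr'⟩ := Metric.eventually_nhds_iff.1 h3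
  refine ⟨min (r / 2) (1 / 2), by positivity, lt_of_le_of_lt (min_le_right _ _) (by norm_num), ?_⟩
  have h4 := @hr' (min (r / 2) (1 / 2)) (by
    rw [Real.dist_eq, sub_zero, abs_of_pos (by positivity)]
    exact lt_of_le_of_lt (min_le_left _ _) (by linarith))
  linarith

/-- **the upper bound** -/
theorem up (hA : ∀ n, MeasurableSet[ℱ n] (A n))
    (hd : ∀ᵐ ω ∂μ, Tendsto (fun n : ℕ => dens μ ℱ A n ω * Real.log n) atTop (𝓝 1)) :
    ∀ᵐ ω ∂μ, ∀ ε : ℝ, 0 < ε → ∀ᶠ n : ℕ in atTop, ∃ p, 0 < p ∧ p < n ∧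
      (p : ℝ) ≤ (2 + ε) * (Real.log n ^ 2 * Real.log (Real.log n)) ∧ ω ∈ A p ∧ ω ∈ A (n - p) := by
  have h1 : ∀ᵐ ω ∂μ, ∀ m : ℕ, ∀ᶠ n : ℕ in atTop,
      ∃ p, 0 < p ∧ p < n ∧ p ≤ hh (2 + 1 / (m + 1 : ℝ)) n ∧ ω ∈ A p ∧ ω ∈ A (n - p) := by
    refine ae_all_iff.2 fun m => ?_
    have hm : (0 : ℝ) < 1 / (m + 1 : ℝ) := by positivity
    obtain ⟨η, h1, h2, h3⟩ := choose_eta (c := 2 + 1 / (m + 1 : ℝ)) (by linarith)
    exact up_one hA hd (by linarith) h1 h2 h3
  filter_upwards [h1] with ω hω ε hε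
  obtain ⟨m, hm⟩ := exists_nat_one_div_lt hε
  have h5 : ∀ᶠ n : ℕ in atTop, (1 : ℝ) < Real.log n :=
    (Real.tendsto_log_atTop.comp tendsto_natCast_atTop_atTop).eventually_gt_atTop 1
  filter_upwards [hω m, h5] with n g1 g2
  obtain ⟨p, p1, p2, p3, p4, p5⟩ := g1
  refine ⟨p, p1, p2, ?_, p4, p5⟩
  have hX : 0 ≤ Real.log n ^ 2 * Real.log (Real.log n) := by
    have := Real.log_pos g2
    positivity
  have h6 : (p : ℝ) ≤ hh (2 + 1 / (m + 1 : ℝ)) n := by exact_mod_cast p3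
  refine h6.trans ((Nat.floor_le (by positivity)).trans ?_)
  exact mul_le_mul_of_nonneg_right (by linarith) hX

end Pool.Agent.N233.TL
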