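import Mathlib
import Pool.Agent.N740.HK.Gap2
import Pool.Agent.N233.TL.Up

set_option autoImplicit false
set_option linter.unusedSectionVars false

/-!
# The least summand in Goldbach representations in sequential models: the lower bound
-/

open MeasureTheory Filter Set
open scoped ENNReal Topology

namespace Pool.Agent.N233.TL

open Pool.Agent.R528.RM Pool.Agent.N909.TF Pool.Agent.N740.HK

variable {Ω : Type} {m0 : MeasurableSpace Ω} {μ : Measure Ω} [IsProbabilityMeasure μ]
  {ℱ : Filtration ℕ m0} {A : ℕ → Set Ω}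

/-! ### Deterministic forbidden positions -/

/-- no forbidden position in the window is chosen -/
def NA (A : ℕ → Set Ω) (F : Finset ℕ) (t j : ℕ) : Set Ω := {ω | ∀ k ∈ F, t < k → k ≤ t + j → ω ∉ A k}

theorem na_ge (hA : ∀ n, MeasurableSet[ℱ n] (A n)) {V : ℕ → Set Ω}
    (hV : ∀ n, MeasurableSet[ℱ n] (V n)) {u : ℝ} (hu0 : 0 ≤ u) (hu1 : u ≤ 1) (j : ℕ) :
    ∀ (F : Finset ℕ) (t : ℕ), (∀ n, t ≤ n → n < t + j → ∀ ω, ω ∉ V n → dens μ ℱ A n ω ≤ u) →
      ∀ B, MeasurableSet[ℱ t] B → (1 - u) ^ F.card * μ.real B ≤ μ.real (B ∩ (NA A F t j ∪ WV V t j)) := by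
  induction j with
  | zero =>
    intro F t _ B hB
    have e : B ∩ (NA A F t 0 ∪ WV V t 0) = B := by
      have : NA A F t 0 = univ := by
        ext ω
        simp only [NA, mem_ofPred_eq, mem_univ, iff_true]
        intro k _ h1 h2
        omega
      rw [this, univ_union, inter_univ]
    rw [e]
    exact mul_le_of_le_one_left measureReal_nonneg (pow_le_one₀ (by linarith) (by linarith))
  | succ j ih =>
    intro F t hbd B hB
    have hV0 : MeasurableSet (V t) := ℱ.le _ _ (hV t)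
    have hA0 : MeasurableSet (A (t + 1)) := ℱ.le _ _ (hA _)
    have hBV : MeasurableSet[ℱ t] (B \ V t) := @MeasurableSet.diff _ (ℱ t) _ _ hB (hV t)
    have hbd' : ∀ n, t + 1 ≤ n → n < t + 1 + j → ∀ ω, ω ∉ V n → dens μ ℱ A n ω ≤ u :=
      fun n h1 h2 => hbd n (by omega) (by omega)
    have hupp := upper_meas (μ := μ) hA t hBV (u := u) (fun ω hω => hbd t le_rfl (by omega) ω hω.2)
    have hsplit := measureReal_inter_add_sdiff (μ := μ) (s := B \ V t) hA0
    set X : Set Ω := B ∩ (NA A F t (j + 1) ∪ WV V t (j + 1)) with hX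
    have hXV : μ.real X = μ.real (X ∩ V t) + μ.real (X \ V t) :=
      (measureReal_inter_add_sdiff (μ := μ) (s := X) hV0).symm
    have e1 : X ∩ V t = B ∩ V t := by
      ext ω
      simp only [hX, WV_succ, mem_inter_iff, mem_union]
      tauto
    have hBVs : μ.real B = μ.real (B ∩ V t) + μ.real (B \ V t) :=
      (measureReal_inter_add_sdiff (μ := μ) (s := B) hV0).symm
    have w0 : 0 ≤ (1 - u) ^ F.card := pow_nonneg (by linarith) _
    have w1 : (1 - u) ^ F.card ≤ 1 := pow_le_one₀ (by linarith) (by linarith)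
    have hfirst : (1 - u) ^ F.card * μ.real (B ∩ V t) ≤ μ.real (B ∩ V t) :=
      mul_le_of_le_one_left measureReal_nonneg w1
    have hsecond : (1 - u) ^ F.card * μ.real (B \ V t) ≤ μ.real (X \ V t) := by
      by_cases hF : t + 1 ∈ F
      · have hC : MeasurableSet[ℱ (t + 1)] ((B \ V t) \ A (t + 1)) :=
          @MeasurableSet.diff _ (ℱ (t + 1)) _ _ (ℱ.mono (Nat.le_succ t) _ hBV) (hA (t + 1))
        have h1 := ih (F.erase (t + 1)) (t + 1) hbd' _ hC
        have h2 : (1 - u) * μ.real (B \ V t) ≤ μ.real ((B \ V t) \ A (t + 1)) := by linarith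
        have h3 : ((B \ V t) \ A (t + 1)) ∩ (NA A (F.erase (t + 1)) (t + 1) j ∪ WV V (t + 1) j) ⊆ X \ V t := by
          rintro ω ⟨⟨⟨g1, g2⟩, g3⟩, g4⟩
          refine ⟨⟨g1, ?_⟩, g2⟩
          rcases g4 with g4 | g4
          · left
            intro k hk hk1 hk2
            by_cases hkt : k = t + 1
            · rw [hkt]
              exact g3
            · exact g4 k (Finset.mem_erase.2 ⟨hkt, hk⟩) (by omega) (by omega)
          · right
            rw [WV_succ]
            exact Or.inr g4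
        have hcard : F.card = (F.erase (t + 1)).card + 1 := by
          rw [Finset.card_erase_of_mem hF]
          have := Finset.card_pos.2 ⟨_, hF⟩
          omega
        calc (1 - u) ^ F.card * μ.real (B \ V t) =
              (1 - u) ^ (F.erase (t + 1)).card * ((1 - u) * μ.real (B \ V t)) := by
                rw [hcard, pow_succ]
                ring
          _ ≤ (1 - u) ^ (F.erase (t + 1)).card * μ.real ((B \ V t) \ A (t + 1)) :=
              mul_le_mul_of_nonneg_left h2 (pow_nonneg (by linarith) _)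
          _ ≤ _ := h1
          _ ≤ _ := measureReal_mono h3
      · have h1 := ih F (t + 1) hbd' (B \ V t) (ℱ.mono (Nat.le_succ t) _ hBV)
        have h3 : (B \ V t) ∩ (NA A F (t + 1) j ∪ WV V (t + 1) j) ⊆ X \ V t := by
          rintro ω ⟨⟨g1, g2⟩, g4⟩
          refine ⟨⟨g1, ?_⟩, g2⟩
          rcases g4 with g4 | g4
          · left
            intro k hk hk1 hk2
            have hkt : k ≠ t + 1 := fun h => hF (h ▸ hk)
            exact g4 k hk (by omega) (by omega)
          · right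
            rw [WV_succ]
            exact Or.inr g4
        exact h1.trans (measureReal_mono h3)
    rw [hXV, e1, hBVs, mul_add]
    exact add_le_add hfirst hsecond

/-! ### Random forbidden positions -/

open Classical in
/-- the chosen integers up to `h` -/
noncomputable def tr (A : ℕ → Set Ω) (h : ℕ) (ω : Ω) : Finset ℕ := (Finset.Ioc 0 h).filter (fun p => ω ∈ A p)

open Classical in
lemma mem_tr {h p : ℕ} {ω : Ω} : p ∈ tr A h ω ↔ (0 < p ∧ p ≤ h) ∧ ω ∈ A p := by
  unfold tr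
  rw [Finset.mem_filter, Finset.mem_Ioc]

lemma tr_meas (hA : ∀ n, MeasurableSet[ℱ n] (A n)) {h t : ℕ} (ht : h ≤ t) (s : Finset ℕ) :
    MeasurableSet[ℱ t] {ω | tr A h ω = s} := by
  have e : {ω | tr A h ω = s} = ⋂ p : ℕ, {ω | p ∈ tr A h ω ↔ p ∈ s} := by
    ext ω
    rw [mem_iInter]
    exact Finset.ext_iff
  rw [e]
  refine @MeasurableSet.iInter _ _ (ℱ t) _ _ fun p => ?_
  by_cases hp : 0 < p ∧ p ≤ h
  · have hAp : MeasurableSet[ℱ t] (A p) := ℱ.mono (by omega) _ (hA p)
    by_cases hs : p ∈ s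
    · have : {ω | p ∈ tr A h ω ↔ p ∈ s} = A p := by
        ext ω
        simp only [mem_ofPred_eq, mem_tr]
        tauto
      rw [this]
      exact hAp
    · have : {ω | p ∈ tr A h ω ↔ p ∈ s} = (A p)ᶜ := by
        ext ω
        simp only [mem_ofPred_eq, mem_tr, mem_compl_iff]
        tauto
      rw [this]
      exact @MeasurableSet.compl _ _ (ℱ t) hAp
  · by_cases hs : p ∈ s
    · have : {ω | p ∈ tr A h ω ↔ p ∈ s} = ∅ := by
        ext ω
        simp only [mem_ofPred_eq, mem_tr, mem_empty_iff_false]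
        tauto
      rw [this]
      exact @MeasurableSet.empty _ (ℱ t)
    · have : {ω | p ∈ tr A h ω ↔ p ∈ s} = univ := by
        ext ω
        simp only [mem_ofPred_eq, mem_tr, mem_univ]
        tauto
      rw [this]
      exact @MeasurableSet.univ _ (ℱ t)

/-- `n - p` is not chosen for the chosen `p ≤ h` -/
def Gd (A : ℕ → Set Ω) (h n : ℕ) : Set Ω := {ω | ∀ p, 0 < p → p ≤ h → ω ∈ A p → ω ∉ A (n - p)}

lemma Gd_meas (hA : ∀ n, MeasurableSet[ℱ n] (A n)) {h n : ℕ} (hn : h ≤ n) : MeasurableSet[ℱ n] (Gd A h n) := by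
  have e : Gd A h n = ⋂ p ∈ Finset.Ioc 0 h, (A p ∩ A (n - p))ᶜ := by
    ext ω
    simp only [Gd, mem_ofPred_eq, mem_iInter, Finset.mem_Ioc, mem_compl_iff, mem_inter_iff]
    constructor
    · rintro h1 p ⟨h2, h3⟩ ⟨h4, h5⟩
      exact h1 p h2 h3 h4 h5
    · intro h1 p h2 h3 h4 h5
      exact h1 p ⟨h2, h3⟩ ⟨h4, h5⟩
  rw [e]
  refine Finset.measurableSet_biInter _ fun p hp => ?_
  have hp' := Finset.mem_Ioc.1 hp
  exact @MeasurableSet.compl _ _ (ℱ n) (@MeasurableSet.inter _ (ℱ n) _ _ (ℱ.mono (by omega) _ (hA p))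
    (ℱ.mono (by omega) _ (hA _)))

/-- the event of a block -/
def DD (A V : ℕ → Set Ω) (h r t J : ℕ) : Set Ω := (Gd A h (t + J) ∪ WV V t J) ∪ {ω | r < (tr A h ω).card}

lemma big_meas (hA : ∀ n, MeasurableSet[ℱ n] (A n)) {h t r : ℕ} (ht : h ≤ t) :
    MeasurableSet[ℱ t] {ω | r < (tr A h ω).card} := by
  have e : {ω | r < (tr A h ω).card} =
      ⋃ s ∈ ((Finset.Ioc 0 h).powerset.filter (fun s => r < s.card)), {ω | tr A h ω = s} := by
    ext ω
    simp only [mem_ofPred_eq, mem_iUnion, Finset.mem_filter, Finset.mem_powerset, exists_prop, exists_eq_right']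
    refine ⟨fun h1 => ⟨?_, h1⟩, fun h1 => h1.2⟩
    intro p hp
    exact Finset.mem_Ioc.2 (mem_tr.1 hp).1
  rw [e]
  exact Finset.measurableSet_biUnion _ fun s _ => tr_meas hA ht s

lemma DD_meas (hA : ∀ n, MeasurableSet[ℱ n] (A n)) {V : ℕ → Set Ω}
    (hV : ∀ n, MeasurableSet[ℱ n] (V n)) {h r t J : ℕ} (ht : h ≤ t) : MeasurableSet[ℱ (t + J)] (DD A V h r t J) :=
  @MeasurableSet.union _ (ℱ (t + J)) _ _ (@MeasurableSet.union _ (ℱ (t + J)) _ _ (Gd_meas hA (by omega))
    (WV_meas hV t J)) (big_meas hA (by omega))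

theorem block_ge (hA : ∀ n, MeasurableSet[ℱ n] (A n)) {V : ℕ → Set Ω}
    (hV : ∀ n, MeasurableSet[ℱ n] (V n)) {u : ℝ} (hu0 : 0 ≤ u) (hu1 : u ≤ 1) {h r t J : ℕ} (ht : h ≤ t)
    (hJ : h < J) (hbd : ∀ n, t ≤ n → n < t + J → ∀ ω, ω ∉ V n → dens μ ℱ A n ω ≤ u) (C : Set Ω)
    (hC : MeasurableSet[ℱ t] C) : (1 - u) ^ r * μ.real C ≤ μ.real (C ∩ DD A V h r t J) := by
  classical
  set P := (Finset.Ioc 0 h).powerset with hP
  have hC0 : MeasurableSet C := ℱ.le _ _ hC
  have hD0 : MeasurableSet (DD A V h r t J) := ℱ.le _ _ (DD_meas hA hV ht)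
  have hs0 : ∀ s, MeasurableSet {ω | tr A h ω = s} := fun s => ℱ.le _ _ (tr_meas hA ht s)
  have hcov : ∀ ω, tr A h ω ∈ P := by
    intro ω
    rw [hP, Finset.mem_powerset]
    intro p hp
    exact Finset.mem_Ioc.2 (mem_tr.1 hp).1
  have h1 : μ.real C ≤ ∑ s ∈ P, μ.real (C ∩ {ω | tr A h ω = s}) := by
    refine le_trans (measureReal_mono ?_ (measure_ne_top _ _)) (measureReal_biUnion_finset_le _ _)
    intro ω hω
    rw [mem_iUnion₂]
    exact ⟨tr A h ω, hcov ω, hω, rfl⟩
  have h2 : ∑ s ∈ P, μ.real ((C ∩ DD A V h r t J) ∩ {ω | tr A h ω = s}) ≤ μ.real (C ∩ DD A V h r t J) := by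
    rw [← measureReal_biUnion_finset]
    · exact measureReal_mono (iUnion₂_subset fun s _ => inter_subset_left)
    · intro s _ s' _ hss
      rw [Function.onFun, Set.disjoint_left]
      rintro ω ⟨_, h3⟩ ⟨_, h4⟩
      exact hss (h3.symm.trans h4)
    · intro s _
      exact (hC0.inter hD0).inter (hs0 s)
  have h3 : ∀ s ∈ P, (1 - u) ^ r * μ.real (C ∩ {ω | tr A h ω = s}) ≤
      μ.real ((C ∩ DD A V h r t J) ∩ {ω | tr A h ω = s}) := by
    intro s hs
    by_cases hr : r < s.card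
    · have e : (C ∩ DD A V h r t J) ∩ {ω | tr A h ω = s} = C ∩ {ω | tr A h ω = s} := by
        ext ω
        constructor
        · rintro ⟨⟨g1, _⟩, g2⟩
          exact ⟨g1, g2⟩
        · rintro ⟨g1, g2⟩
          refine ⟨⟨g1, Or.inr ?_⟩, g2⟩
          show r < (tr A h ω).card
          have g2' : tr A h ω = s := g2
          rw [g2']
          exact hr
      rw [e]
      exact mul_le_of_le_one_left measureReal_nonneg (pow_le_one₀ (by linarith) (by linarith))
    · push Not at hr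
      have hB : MeasurableSet[ℱ t] (C ∩ {ω | tr A h ω = s}) :=
        @MeasurableSet.inter _ (ℱ t) _ _ hC (tr_meas hA ht s)
      have h4 := na_ge (μ := μ) hA hV hu0 hu1 J (s.image (fun p => t + J - p)) t hbd _ hB
      have h5 : (1 - u) ^ r ≤ (1 - u) ^ (s.image (fun p => t + J - p)).card :=
        pow_le_pow_of_le_one (by linarith) (by linarith) (Finset.card_image_le.trans hr)
      refine (mul_le_mul_of_nonneg_right h5 measureReal_nonneg).trans (h4.trans (measureReal_mono ?_ (measure_ne_top _ _)))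
      rintro ω ⟨⟨g1, g2⟩, g3⟩
      refine ⟨⟨g1, Or.inl ?_⟩, g2⟩
      have g2' : tr A h ω = s := g2
      rcases g3 with g3 | g3
      · left
        intro p hp1 hp2 hp3
        have hps : p ∈ s := by
          rw [← g2', mem_tr]
          exact ⟨⟨hp1, hp2⟩, hp3⟩
        exact g3 _ (Finset.mem_image_of_mem _ hps) (by omega) (by omega)
      · exact Or.inr g3
  calc (1 - u) ^ r * μ.real C ≤ (1 - u) ^ r * ∑ s ∈ P, μ.real (C ∩ {ω | tr A h ω = s}) :=
        mul_le_mul_of_nonneg_left h1 (pow_nonneg (by linarith) _)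
    _ = ∑ s ∈ P, (1 - u) ^ r * μ.real (C ∩ {ω | tr A h ω = s}) := Finset.mul_sum _ _ _
    _ ≤ ∑ s ∈ P, μ.real ((C ∩ DD A V h r t J) ∩ {ω | tr A h ω = s}) := Finset.sum_le_sum h3
    _ ≤ _ := h2

end Pool.Agent.N233.TL
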