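import Mathlib
import Pool.Agent.N233.TL.Low

set_option autoImplicit false
set_option linter.unusedSectionVars false

/-!
# The least summand in Goldbach representations in sequential models: the lower bound, conclusion
-/

open MeasureTheory Filter Set
open scoped ENNReal Topology

namespace Pool.Agent.N233.TL

open Pool.Agent.R528.RM Pool.Agent.N909.TF Pool.Agent.N740.HK

variable {Ω : Type} {m0 : MeasurableSpace Ω} {μ : Measure Ω} [IsProbabilityMeasure μ]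
  {ℱ : Filtration ℕ m0} {A : ℕ → Set Ω}

/-! ### Analysis -/

/-- lower bound of the power -/
lemma pow_low {ε L : ℝ} (hε : 0 < ε) (hε1 : ε < 1) (hL : 4 ≤ L) {G : ℕ} (hG : (G : ℝ) ≤ (1 - ε) * L ^ 2) :
    Real.exp (-((1 - ε / 2) * (L + 3))) ≤ (1 - (1 + ε / 2) / L) ^ G := by
  have hL0 : 0 < L := by linarith
  have hu : (1 + ε / 2) / L < 1 := by rw [div_lt_one hL0]; linarith
  have p0 : 0 < 1 - (1 + ε / 2) / L := by linarith
  have p1 : 1 - (1 - (1 + ε / 2) / L)⁻¹ ≤ Real.log (1 - (1 + ε / 2) / L) := Real.one_sub_inv_le_log_of_pos p0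
  have p2 : 1 - (1 - (1 + ε / 2) / L)⁻¹ = -((1 + ε / 2) / (L - (1 + ε / 2))) := by
    have q1 : L - (1 + ε / 2) ≠ 0 := by
      have : 0 < L - (1 + ε / 2) := by linarith
      exact this.ne'
    obtain ⟨c, hcc⟩ : ∃ c, c = 1 + ε / 2 := ⟨_, rfl⟩
    rw [← hcc] at q1 ⊢
    have q2 : (1 - c / L)⁻¹ = L / (L - c) := by
      rw [one_sub_div hL0.ne', inv_div]
    have q3 : L / (L - c) = 1 + c / (L - c) := by
      rw [← div_self q1, ← add_div]
      congr 1
      ring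
    rw [q2, q3]
    ring
  rw [p2] at p1
  have p3 : (1 + ε / 2) / (L - (1 + ε / 2)) * ((1 - ε) * L ^ 2) ≤ (1 - ε / 2) * (L + 3) := by
    have q1 : 0 < L - (1 + ε / 2) := by linarith
    have q2 : L ^ 2 ≤ (L + 3) * (L - (1 + ε / 2)) := by nlinarith
    have q3 : (1 + ε / 2) * (1 - ε) ≤ 1 - ε / 2 := by nlinarith
    rw [div_mul_eq_mul_div, div_le_iff₀ q1]
    calc (1 + ε / 2) * ((1 - ε) * L ^ 2) = ((1 + ε / 2) * (1 - ε)) * L ^ 2 := by ring
      _ ≤ (1 - ε / 2) * L ^ 2 := mul_le_mul_of_nonneg_right q3 (by positivity)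
      _ ≤ (1 - ε / 2) * ((L + 3) * (L - (1 + ε / 2))) := mul_le_mul_of_nonneg_left q2 (by linarith)
      _ = _ := by ring
  have p4 : 0 ≤ (1 + ε / 2) / (L - (1 + ε / 2)) := div_nonneg (by linarith) (by linarith)
  have p5 : (1 - (1 + ε / 2) / L) ^ G = Real.exp (G * Real.log (1 - (1 + ε / 2) / L)) := by
    rw [← Real.log_pow, Real.exp_log (pow_pos p0 _)]
  rw [p5]
  apply Real.exp_le_exp.2
  have p6 : (G : ℝ) * ((1 + ε / 2) / (L - (1 + ε / 2))) ≤ (1 - ε / 2) * (L + 3) :=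
    (mul_le_mul_of_nonneg_right hG p4).trans (by rw [mul_comm]; exact p3)
  have p7 : (G : ℝ) * (-((1 + ε / 2) / (L - (1 + ε / 2)))) ≤ G * Real.log (1 - (1 + ε / 2) / L) :=
    mul_le_mul_of_nonneg_left p1 (Nat.cast_nonneg G)
  linarith

lemma ana3 {ε : ℝ} (hε : 0 < ε) (hε1 : ε < 1) : ∀ᶠ L : ℝ in atTop, 4 ≤ L ∧ ∀ G H M : ℕ,
    (G : ℝ) ≤ (1 - ε) * L ^ 2 → 0 < H → (H : ℝ) ≤ L ^ 3 → Real.exp L ≤ H * (M + 1) →
    L ≤ M * (1 - (1 + ε / 2) / L) ^ G := by
  have h1 := Real.tendsto_pow_mul_exp_neg_atTop_nhds_zero 4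
  have h2 : Tendsto (fun L : ℝ => (ε / 2) * L) atTop atTop := tendsto_id.const_mul_atTop (by linarith)
  have h3 := h1.comp h2
  have hc : 0 < (ε / 2) ^ 4 / (2 * Real.exp 3) := by positivity
  have h4 := Real.tendsto_pow_mul_exp_neg_atTop_nhds_zero 3
  filter_upwards [h3.eventually_lt_const hc, h4.eventually_lt_const (show (0 : ℝ) < 1 / 2 by norm_num),
    eventually_ge_atTop 4] with L k1 k2 hL
  refine ⟨hL, fun G H M hG hH0 hH hM => ?_⟩
  have hpow := pow_low hε hε1 hL hG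
  simp only [Function.comp_def] at k1
  have hc1 : 2 * Real.exp 3 * L ^ 4 ≤ Real.exp (ε / 2 * L) := by
    rw [lt_div_iff₀ (by positivity)] at k1
    have k3 : (ε / 2) ^ 4 * (2 * Real.exp 3 * L ^ 4 * Real.exp (-(ε / 2 * L))) ≤ (ε / 2) ^ 4 * 1 := by
      have e : (ε / 2) ^ 4 * (2 * Real.exp 3 * L ^ 4 * Real.exp (-(ε / 2 * L))) =
        (ε / 2 * L) ^ 4 * Real.exp (-(ε / 2 * L)) * (2 * Real.exp 3) := by ring
      rw [e, mul_one]
      exact k1.le
    have k4 := le_of_mul_le_mul_left k3 (by positivity)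
    have k5 : 2 * Real.exp 3 * L ^ 4 = (2 * Real.exp 3 * L ^ 4 * Real.exp (-(ε / 2 * L))) * Real.exp (ε / 2 * L) := by
      rw [mul_assoc _ (Real.exp (-(ε / 2 * L))), ← Real.exp_add, neg_add_cancel, Real.exp_zero, mul_one]
    rw [k5]
    calc _ ≤ 1 * Real.exp (ε / 2 * L) := mul_le_mul_of_nonneg_right k4 (Real.exp_pos _).le
      _ = _ := one_mul _
  have hc2 : 2 * L ^ 3 ≤ Real.exp L := by
    have k5 : L ^ 3 = (L ^ 3 * Real.exp (-L)) * Real.exp L := by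
      rw [mul_assoc, ← Real.exp_add, neg_add_cancel, Real.exp_zero, mul_one]
    have := mul_le_mul_of_nonneg_right k2.le (Real.exp_pos L).le
    rw [← k5] at this
    linarith
  have hL0 : 0 < L := by linarith
  -- the number of blocks
  have hMl : Real.exp L / (2 * L ^ 3) ≤ M := by
    have m1 : Real.exp L ≤ L ^ 3 * (M + 1) := hM.trans (mul_le_mul_of_nonneg_right hH (by positivity))
    rw [div_le_iff₀ (by positivity)]
    have m2 : 1 ≤ (M : ℝ) := by
      by_contra hcon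
      push Not at hcon
      have : (M : ℝ) + 1 < 2 := by linarith
      have h3 : 0 < L ^ 3 := by positivity
      nlinarith
    have h3 : 0 < L ^ 3 := by positivity
    nlinarith
  have hfin : L ≤ (Real.exp L / (2 * L ^ 3)) * Real.exp (-((1 - ε / 2) * (L + 3))) := by
    have f1 : (Real.exp L / (2 * L ^ 3)) * Real.exp (-((1 - ε / 2) * (L + 3))) =
      (Real.exp L * Real.exp (-((1 - ε / 2) * (L + 3)))) / (2 * L ^ 3) := by ring
    rw [f1, ← Real.exp_add, le_div_iff₀ (by positivity)]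
    have f2 : Real.exp (ε / 2 * L) * Real.exp (-3) ≤ Real.exp (L + -((1 - ε / 2) * (L + 3))) := by
      rw [← Real.exp_add]
      apply Real.exp_le_exp.2
      nlinarith
    refine le_trans ?_ f2
    have f4 : L * (2 * L ^ 3) = (2 * Real.exp 3 * L ^ 4) * Real.exp (-3) := by
      have : Real.exp 3 * Real.exp (-3) = 1 := by rw [← Real.exp_add]; norm_num
      calc L * (2 * L ^ 3) = 2 * L ^ 4 * (Real.exp 3 * Real.exp (-3)) := by rw [this, mul_one]; ring
        _ = _ := by ring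
    rw [f4]
    exact mul_le_mul_of_nonneg_right hc1 (Real.exp_pos _).le
  refine hfin.trans ?_
  exact mul_le_mul hMl hpow (Real.exp_pos _).le (Nat.cast_nonneg M)

/-- the scales: `L = log 2^i`, `L' = log 2^(i+1)`, `h = ⌊c L'^2 log L'⌋`, `c = 2 (1 - κ)` -/
lemma ana4 {κ : ℝ} (hκ : 0 < κ) (hκ1 : κ < 1 / 2) : ∀ᶠ L : ℝ in atTop, ∀ L' : ℝ, L' = L + Real.log 2 → ∀ h : ℝ,
    2 * (1 - κ) * (L' ^ 2 * Real.log L') - 1 ≤ h → h ≤ 2 * (1 - κ) * (L' ^ 2 * Real.log L') →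
    1 ≤ h ∧ 2 * h ≤ L ^ 3 ∧ (1 + κ / 4) * (h / Real.log h) ≤ (1 - κ / 2) * L ^ 2 := by
  have h1 : ∀ᶠ L : ℝ in atTop, Real.log L ≤ L / 16 := by
    have e1 := Real.isLittleO_log_id_atTop.def (show (0 : ℝ) < 1 / 16 by norm_num)
    filter_upwards [e1, eventually_gt_atTop 0] with y g1 g3
    rw [id, Real.norm_of_nonneg g3.le] at g1
    have := (le_abs_self _).trans g1
    linarith
  have h2 : ∀ᶠ L : ℝ in atTop, 8 ≤ κ * L := (tendsto_id.const_mul_atTop hκ).eventually_ge_atTop 8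
  have h3 : ∀ᶠ L : ℝ in atTop, 4 ≤ Real.log L := Real.tendsto_log_atTop.eventually_ge_atTop 4
  filter_upwards [h1, h2, h3, eventually_ge_atTop 16] with L g1 g2 g3 g4 L' hL' h hh1 hh2
  have hl2 : 0 < Real.log 2 := Real.log_pos (by norm_num)
  have hl2' : Real.log 2 < 1 := by linarith [Real.log_two_lt_d9]
  have hLL : L ≤ L' := by linarith
  have hLL' : L' ≤ L + 1 := by linarith
  have hlog1 : 4 ≤ Real.log L' := g3.trans (Real.log_le_log (by linarith) hLL)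
  have hlog2 : Real.log L' ≤ L / 8 := by
    have a1 : Real.log L' ≤ Real.log (2 * L) := Real.log_le_log (by linarith) (by linarith)
    rw [Real.log_mul (by norm_num) (by linarith)] at a1
    linarith
  have hL'2 : L' ^ 2 ≤ 2 * L ^ 2 := by nlinarith
  have hX : 0 ≤ L' ^ 2 * Real.log L' := by positivity
  have hX1 : L' ^ 2 * 4 ≤ L' ^ 2 * Real.log L' := mul_le_mul_of_nonneg_left hlog1 (by positivity)
  have hX2 : L' ^ 2 * Real.log L' ≤ 2 * L ^ 2 * (L / 8) := mul_le_mul hL'2 hlog2 (by linarith) (by positivity)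
  have hL'1 : 1 ≤ L' ^ 2 := one_le_pow₀ (by linarith)
  have hh3 : L' ^ 2 ≤ h := by nlinarith
  have hh4 : 1 ≤ h := hL'1.trans hh3
  refine ⟨hh4, ?_, ?_⟩
  · have : 2 * (1 - κ) * (L' ^ 2 * Real.log L') ≤ 2 * (L' ^ 2 * Real.log L') := by nlinarith
    nlinarith
  · have hlogh : 2 * Real.log L' ≤ Real.log h := by
      have a1 := Real.log_le_log (by positivity) hh3
      rw [Real.log_pow] at a1
      exact_mod_cast a1
    have hlogh0 : 0 < Real.log h := by linarith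
    have hq : h / Real.log h ≤ (1 - κ) * L' ^ 2 := by
      rw [div_le_iff₀ hlogh0]
      calc h ≤ 2 * (1 - κ) * (L' ^ 2 * Real.log L') := hh2
        _ = (1 - κ) * L' ^ 2 * (2 * Real.log L') := by ring
        _ ≤ _ := mul_le_mul_of_nonneg_left hlogh (mul_nonneg (by linarith) (by positivity))
    have hsq : (1 - 3 * κ / 4) * L' ^ 2 ≤ (1 - κ / 2) * L ^ 2 := by
      have b1 : L' ^ 2 ≤ L ^ 2 + 2 * L + 1 := by nlinarith
      have b2 : (1 - 3 * κ / 4) * L' ^ 2 ≤ (1 - 3 * κ / 4) * (L ^ 2 + 2 * L + 1) :=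
        mul_le_mul_of_nonneg_left b1 (by linarith)
      have b3 : 8 * L ≤ κ * L * L := mul_le_mul_of_nonneg_right g2 (by linarith)
      nlinarith
    calc (1 + κ / 4) * (h / Real.log h) ≤ (1 + κ / 4) * ((1 - κ) * L' ^ 2) :=
          mul_le_mul_of_nonneg_left hq (by linarith)
      _ = ((1 + κ / 4) * (1 - κ)) * L' ^ 2 := by ring
      _ ≤ (1 - 3 * κ / 4) * L' ^ 2 := by
          apply mul_le_mul_of_nonneg_right _ (by positivity)
          nlinarith
      _ ≤ _ := hsq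

lemma low_one (hA : ∀ n, MeasurableSet[ℱ n] (A n))
    (hd : ∀ᵐ ω ∂μ, Tendsto (fun n : ℕ => dens μ ℱ A n ω * Real.log n) atTop (𝓝 1))
    {κ : ℝ} (hκ : 0 < κ) (hκ1 : κ < 1 / 2) :
    ∀ᵐ ω ∂μ, ∀ᶠ i : ℕ in atTop, ∃ n, 2 ^ i < n ∧ n ≤ 2 ^ (i + 1) ∧ Even n ∧
      ∀ p, 0 < p → p ≤ hh (2 * (1 - κ)) (2 ^ (i + 1)) → ω ∈ A p → ω ∉ A (n - p) := by
  obtain ⟨ε, hε⟩ : ∃ ε, ε = κ / 2 := ⟨_, rfl⟩
  have hε0 : 0 < ε := by linarith
  have hε1 : ε < 1 := by linarith
  have hlog : Tendsto (fun i : ℕ => Real.log ((2 : ℝ) ^ i)) atTop atTop := by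
    have : (fun i : ℕ => Real.log ((2 : ℝ) ^ i)) = fun i : ℕ => (i : ℝ) * Real.log 2 := by
      funext i; rw [Real.log_pow]
    rw [this]
    exact tendsto_natCast_atTop_atTop.atTop_mul_const (Real.log_pos (by norm_num))
  obtain ⟨i₀, hi₀⟩ := eventually_atTop.1 (hlog.eventually ((ana3 hε0 hε1).and (ana4 hκ hκ1)))
  set Li : ℕ → ℝ := fun i => Real.log ((2 : ℝ) ^ i) with hLi
  set h : ℕ → ℕ := fun i => hh (2 * (1 - κ)) (2 ^ (i + 1)) with hh'
  set r : ℕ → ℕ := fun i => ⌊(1 - ε) * Li i ^ 2⌋₊ with hr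
  set H : ℕ → ℕ := fun i => 2 * h i with hH
  set M : ℕ → ℕ := fun i => 2 ^ i / H i with hM
  set T : ℕ → ℕ → ℕ := fun i m => 2 ^ i + H i * m with hT
  set δ : ℝ := ε / 2 with hδ
  have hδ0 : 0 < δ := by positivity
  have hδ1 : δ ≤ 1 := by linarith
  set u : ℕ → ℝ := fun i => (1 + δ) / Li i with hu
  have hfacts : ∀ i, i₀ ≤ i → 4 ≤ Li i ∧ 1 ≤ h i ∧ (H i : ℝ) ≤ Li i ^ 3 ∧
      (1 + δ) * ((h i : ℝ) / Real.log (h i)) ≤ (1 - ε) * Li i ^ 2 := by
    intro i hi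
    obtain ⟨⟨g1, _⟩, g2⟩ := hi₀ i hi
    have g1' : 4 ≤ Li i := g1
    have e1 : Real.log ((2 ^ (i + 1) : ℕ) : ℝ) = Li i + Real.log 2 := by
      simp only [hLi]
      push_cast
      rw [pow_succ, Real.log_mul (by positivity) (by norm_num)]
    have hl2 : 0 < Real.log 2 := Real.log_pos (by norm_num)
    have hpos : 0 ≤ 2 * (1 - κ) * (Real.log ((2 ^ (i + 1) : ℕ) : ℝ) ^ 2 * Real.log (Real.log ((2 ^ (i + 1) : ℕ) : ℝ))) := by
      rw [e1]
      have : 0 < Real.log (Li i + Real.log 2) := Real.log_pos (by linarith)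
      have : 0 < 1 - κ := by linarith
      positivity
    have a1 : 2 * (1 - κ) * ((Li i + Real.log 2) ^ 2 * Real.log (Li i + Real.log 2)) - 1 ≤ (h i : ℝ) := by
      rw [← e1]
      exact (Nat.sub_one_lt_floor _).le
    have a2 : (h i : ℝ) ≤ 2 * (1 - κ) * ((Li i + Real.log 2) ^ 2 * Real.log (Li i + Real.log 2)) := by
      rw [← e1]
      exact Nat.floor_le hpos
    obtain ⟨b1, b2, b3⟩ := g2 (Li i + Real.log 2) rfl (h i) a1 a2
    refine ⟨g1', by exact_mod_cast b1, ?_, ?_⟩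
    · have : ((H i : ℕ) : ℝ) = 2 * (h i : ℝ) := by
        simp only [hH]
        push_cast
        ring
      rw [this]
      exact b2
    · have e2 : δ = κ / 4 := by rw [hδ, hε]; ring
      rw [e2, hε]
      exact b3
  have hHM : ∀ i, H i * M i ≤ 2 ^ i := fun i => Nat.mul_div_le _ _
  have hTM : ∀ i m, m < M i → T i m + H i ≤ 2 ^ (i + 1) := by
    intro i m hm
    have h3 : H i * (m + 1) ≤ 2 ^ i := le_trans (Nat.mul_le_mul_left _ hm) (hHM i)
    have e : T i m + H i = 2 ^ i + H i * (m + 1) := by simp only [hT]; ring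
    rw [e, pow_succ]
    omega
  have hlogT : ∀ i m, m < M i → ∀ n, T i m ≤ n → n < T i m + H i → Li i ≤ Real.log n ∧ Real.log n ≤ Li i + 1 := by
    intro i m hm n hn1 hn2
    have h1 : (2 : ℝ) ^ i ≤ n := by
      have : 2 ^ i ≤ n := le_trans (Nat.le_add_right _ _) hn1
      exact_mod_cast this
    have h2 : (n : ℝ) ≤ 2 * 2 ^ i := by
      have : n ≤ 2 * 2 ^ i := by
        have h3 := hTM i m hm
        rw [pow_succ] at h3
        omega
      exact_mod_cast this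
    have h0 : (0 : ℝ) < 2 ^ i := by positivity
    refine ⟨Real.log_le_log h0 h1, ?_⟩
    have h3 : Real.log n ≤ Real.log (2 * 2 ^ i) := Real.log_le_log (by linarith) h2
    rw [Real.log_mul (by norm_num) h0.ne'] at h3
    have h4 := Real.log_two_lt_d9
    have h5 : Li i = Real.log ((2 : ℝ) ^ i) := rfl
    linarith
  -- `h ≤ 2^i` if there is a block
  have hht : ∀ i m, i₀ ≤ i → m < M i → h i ≤ T i m := by
    intro i m hi hm
    have h1 : H i * 1 ≤ 2 ^ i := le_trans (Nat.mul_le_mul_left _ (by omega)) (hHM i)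
    have h2 : H i = 2 * h i := rfl
    have h3 : 2 ^ i ≤ T i m := Nat.le_add_right _ _
    omega
  have hDm : ∀ i, i₀ ≤ i → ∀ k < 1, ∀ m < M i, MeasurableSet[ℱ (2 ^ i + H i * (m + 1))]
      (DD A (VF μ ℱ A δ) (h i) (r i) (T i m) (H i)) := by
    intro i hi k _ m hm
    have e : 2 ^ i + H i * (m + 1) = T i m + H i := by simp only [hT]; ring
    rw [e]
    exact DD_meas hA (fun n => VF_meas δ n) (hht i m hi hm)
  have hpr : ∀ i, i₀ ≤ i → ∀ k < 1, ∀ m < M i, ∀ C, MeasurableSet[ℱ (2 ^ i + H i * m)] C →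
      (1 - u i) ^ r i * μ.real C ≤ μ.real (C ∩ DD A (VF μ ℱ A δ) (h i) (r i) (T i m) (H i)) := by
    intro i hi k hk m hm C hC
    obtain ⟨hL4, hh1, _, _⟩ := hfacts i hi
    have hu0 : 0 ≤ u i := div_nonneg (by linarith) (by linarith)
    have hu1 : u i ≤ 1 := by
      simp only [hu]
      rw [div_le_one (by linarith)]
      linarith
    refine block_ge hA (fun n => VF_meas δ n) hu0 hu1 (hht i m hi hm) ?_ ?_ C hC
    · have h2 : H i = 2 * h i := rfl
      omega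
    · intro n hn1 hn2 ω hω
      obtain ⟨n1, n2⟩ := hlogT i m hm n hn1 hn2
      exact (VF_bounds hδ1 (by linarith) n1 n2 hω).2
  have hsum : Summable fun i : ℕ => ((1 : ℕ) : ℝ) * Real.exp (-(M i * (1 - u i) ^ r i)) := by
    refine Summable.of_norm_bounded_eventually_nat (g := fun i : ℕ => (1 / 2 : ℝ) ^ i) (summable_geometric_of_lt_one (by norm_num) (by norm_num)) ?_
    filter_upwards [eventually_ge_atTop i₀] with i hi
    obtain ⟨⟨hL4, hana⟩, _⟩ := hi₀ i hi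
    obtain ⟨hL4', hh1, hH3, _⟩ := hfacts i hi
    have hHpos : 0 < H i := by
      have h2 : H i = 2 * h i := rfl
      omega
    have hexp : Real.exp (Li i) = 2 ^ i := Real.exp_log (by positivity)
    have g1 : (r i : ℝ) ≤ (1 - ε) * Li i ^ 2 := Nat.floor_le (mul_nonneg (by linarith) (by positivity))
    have g3 : Real.exp (Li i) ≤ (H i : ℝ) * (M i + 1) := by
      rw [hexp]
      have h3 : 2 ^ i ≤ H i * (M i + 1) := (Nat.lt_mul_div_succ (2 ^ i) hHpos).le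
      exact_mod_cast h3
    have g4 : Li i ≤ M i * (1 - u i) ^ r i := hana (r i) (H i) (M i) g1 hHpos hH3 g3
    rw [Nat.cast_one, one_mul, Real.norm_eq_abs, abs_of_nonneg (Real.exp_pos _).le]
    have g6 : (1 / 2 : ℝ) ^ i = Real.exp (-(Li i)) := by
      rw [Real.exp_neg, hexp, one_div, inv_pow]
    rw [g6]
    exact Real.exp_le_exp.2 (by linarith)
  have main := ev_blocks (μ := μ) (ℱ := ℱ) (D := fun i _ m => DD A (VF μ ℱ A δ) (h i) (r i) (T i m) (H i))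
    (H := H) (M := M) (N := fun _ => 1) (i₀ := i₀) hDm (fun i => (1 - u i) ^ r i) hpr hsum
  have hhT : Tendsto h atTop atTop := by
    have h1 : Tendsto (fun i : ℕ => 2 ^ (i + 1)) atTop atTop :=
      (tendsto_pow_atTop_atTop_of_one_lt (by norm_num : 1 < 2)).comp (tendsto_add_atTop_nat 1)
    exact (hh_tendsto (2 * (1 - κ)) (by linarith)).comp h1
  filter_upwards [main, hd, pnt_ae (μ := μ) hA hd] with ω hω h2 hpnt
  obtain ⟨n₀, hn₀⟩ := no_VF h2 hδ0
  have hpnt' := hhT.eventually (hpnt δ hδ0)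
  filter_upwards [hω, eventually_ge_atTop n₀, eventually_ge_atTop i₀, hpnt', eventually_ge_atTop 1] with i h3 hi hi' hp hi1
  obtain ⟨m, hm, h4⟩ := h3 0 one_pos
  obtain ⟨hL4', hh1, hH3, hcnt⟩ := hfacts i hi'
  refine ⟨T i m + H i, ?_, hTM i m hm, ?_, ?_⟩
  · have e1 : 2 ^ i ≤ T i m := Nat.le_add_right _ _
    have e2 : H i = 2 * h i := rfl
    omega
  · have e1 : Even (2 ^ i) := (Nat.even_pow' (by omega)).2 even_two
    have e2 : Even (H i) := ⟨h i, two_mul _⟩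
    have e3 : T i m + H i = 2 ^ i + H i * (m + 1) := by simp only [hT]; ring
    rw [e3]
    exact e1.add (e2.mul_right _)
  · rcases h4 with (h4 | ⟨n, hn1, _, hn3⟩) | h4
    · exact h4
    · refine absurd hn3 (hn₀ n ?_)
      have e1 : 2 ^ i ≤ T i m := Nat.le_add_right _ _
      have h9 : i < 2 ^ i := Nat.lt_two_pow_self
      omega
    · exfalso
      have h5 : r i < (tr A (h i) ω).card := h4
      have e1 : ({k | ω ∈ A k} ∩ Set.Ioc 0 (h i)).ncard = (tr A (h i) ω).card := by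
        rw [← Set.ncard_coe_finset]
        congr 1
        ext p
        rw [Finset.mem_coe, mem_tr]
        simp only [mem_inter_iff, mem_ofPred_eq, Set.mem_Ioc]
        tauto
      have h6 := (abs_le.1 hp).2
      rw [e1] at h6
      have h7 : ((tr A (h i) ω).card : ℝ) ≤ (1 - ε) * Li i ^ 2 := by linarith
      have h8 : (tr A (h i) ω).card ≤ r i := Nat.le_floor h7
      omega

/-- **the lower bound** -/
theorem low (hA : ∀ n, MeasurableSet[ℱ n] (A n))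
    (hd : ∀ᵐ ω ∂μ, Tendsto (fun n : ℕ => dens μ ℱ A n ω * Real.log n) atTop (𝓝 1)) :
    ∀ᵐ ω ∂μ, ∀ ε : ℝ, 0 < ε → ∀ᶠ i : ℕ in atTop, ∃ n : ℕ, 2 ^ i < n ∧ n ≤ 2 ^ (i + 1) ∧ Even n ∧
      ∀ p : ℕ, 0 < p → (p : ℝ) ≤ (2 - ε) * (Real.log n ^ 2 * Real.log (Real.log n)) → ω ∈ A p → ω ∉ A (n - p) := by
  have h1 : ∀ᵐ ω ∂μ, ∀ m : ℕ, ∀ᶠ i : ℕ in atTop, ∃ n, 2 ^ i < n ∧ n ≤ 2 ^ (i + 1) ∧ Even n ∧
      ∀ p, 0 < p → p ≤ hh (2 * (1 - 1 / (2 * (m + 2 : ℝ)))) (2 ^ (i + 1)) → ω ∈ A p → ω ∉ A (n - p) := by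
    refine ae_all_iff.2 fun m => ?_
    refine low_one hA hd (by positivity) ?_
    rw [div_lt_div_iff₀ (by positivity) (by norm_num)]
    have : (0 : ℝ) ≤ m := Nat.cast_nonneg m
    linarith
  filter_upwards [h1] with ω hω ε hε
  obtain ⟨m, hm⟩ := exists_nat_one_div_lt hε
  filter_upwards [hω m, eventually_ge_atTop 2] with i g1 hi
  obtain ⟨n, n1, n2, n3, n4⟩ := g1
  refine ⟨n, n1, n2, n3, fun p hp1 hp2 hp3 => n4 p hp1 ?_ hp3⟩
  unfold hh
  apply Nat.le_floor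
  have h4 : (4 : ℕ) ≤ n := by
    have : 2 ^ 2 ≤ 2 ^ i := Nat.pow_le_pow_right (by norm_num) hi
    omega
  have h4' : (4 : ℝ) ≤ n := by exact_mod_cast h4
  have hlog1 : 1 < Real.log n := by
    rw [Real.lt_log_iff_exp_lt (by linarith)]
    have := Real.exp_one_lt_d9
    linarith
  have hn2 : (n : ℝ) ≤ ((2 ^ (i + 1) : ℕ) : ℝ) := by exact_mod_cast n2
  have hlog2 : Real.log n ≤ Real.log ((2 ^ (i + 1) : ℕ) : ℝ) := Real.log_le_log (by linarith) hn2
  have hll1 : 0 < Real.log (Real.log n) := Real.log_pos hlog1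
  have hll2 : Real.log (Real.log n) ≤ Real.log (Real.log ((2 ^ (i + 1) : ℕ) : ℝ)) :=
    Real.log_le_log (by linarith) hlog2
  have hX : Real.log n ^ 2 * Real.log (Real.log n) ≤
      Real.log ((2 ^ (i + 1) : ℕ) : ℝ) ^ 2 * Real.log (Real.log ((2 ^ (i + 1) : ℕ) : ℝ)) :=
    mul_le_mul (pow_le_pow_left₀ (by linarith) hlog2 2) hll2 hll1.le (by positivity)
  have hc : 2 - ε ≤ 2 * (1 - 1 / (2 * (m + 2 : ℝ))) := by
    have h5 : (2 : ℝ) * (1 - 1 / (2 * (m + 2 : ℝ))) = 2 - 1 / (m + 2) := by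
      field_simp
    rw [h5]
    have h6 : 1 / (m + 2 : ℝ) ≤ 1 / (m + 1 : ℝ) := one_div_le_one_div_of_le (by positivity) (by linarith)
    linarith
  have hc0 : 0 ≤ 2 * (1 - 1 / (2 * (m + 2 : ℝ))) := by
    have h5 : 1 / (2 * (m + 2 : ℝ)) ≤ 1 := by
      rw [div_le_one (by positivity)]
      have : (0 : ℝ) ≤ m := Nat.cast_nonneg m
      linarith
    linarith
  calc (p : ℝ) ≤ (2 - ε) * (Real.log n ^ 2 * Real.log (Real.log n)) := hp2
    _ ≤ 2 * (1 - 1 / (2 * (m + 2 : ℝ))) * (Real.log n ^ 2 * Real.log (Real.log n)) :=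
        mul_le_mul_of_nonneg_right hc (by positivity)
    _ ≤ _ := mul_le_mul_of_nonneg_left hX hc0

end Pool.Agent.N233.TL
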